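import Pool.Agent.X24.QN.B

/-!
The extremal problem: the maximizing vector is almost orthogonal to its image, and so the constant is
`max(1, 2c)`.
-/

set_option autoImplicit false

open Polynomial Module

namespace Pool.Agent.X24.QN

open Pool.Agent.W753.CZ (numRange crouzeix_bound)

theorem quad_le {w a : ℂ} (hw : ‖w‖ ≤ 1) :
    ‖w - a + (starRingEnd ℂ) a * w ^ 2‖ ≤ 1 + 2 * ‖a‖ ^ 2 := by
  have hρ : w.re ^ 2 + w.im ^ 2 ≤ 1 := by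
    have h1 : ‖w‖ ^ 2 = w.re * w.re + w.im * w.im := by
      rw [← Complex.normSq_eq_norm_sq, Complex.normSq_apply]
    nlinarith [norm_nonneg w]
  have hρ0 : 0 ≤ w.re ^ 2 + w.im ^ 2 := by positivity
  have ha : ‖a‖ ^ 2 = a.re ^ 2 + a.im ^ 2 := by
    rw [← Complex.normSq_eq_norm_sq, Complex.normSq_apply]
    ring
  have hkey : ‖w - a + (starRingEnd ℂ) a * w ^ 2‖ ^ 2 =
      (1 + (w.re ^ 2 + w.im ^ 2)) ^ 2 * (a.re ^ 2 + a.im ^ 2) + (w.re ^ 2 + w.im ^ 2) -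
        2 * (1 - (w.re ^ 2 + w.im ^ 2)) * (a.re * w.re + a.im * w.im) -
          4 * (a.re * w.re + a.im * w.im) ^ 2 := by
    rw [← Complex.normSq_eq_norm_sq, Complex.normSq_apply]
    simp only [Complex.add_re, Complex.sub_re, Complex.mul_re, Complex.conj_re, Complex.conj_im, pow_two,
      Complex.mul_im, Complex.add_im, Complex.sub_im]
    ring
  have hsq : ‖w - a + (starRingEnd ℂ) a * w ^ 2‖ ^ 2 ≤ (1 + 2 * ‖a‖ ^ 2) ^ 2 := by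
    rw [hkey, ha]
    set ρ := w.re ^ 2 + w.im ^ 2 with hρd
    set τ := a.re ^ 2 + a.im ^ 2 with hτd
    set s := a.re * w.re + a.im * w.im with hsd
    have hτ : 0 ≤ τ := by positivity
    have h1 : (1 + ρ) ^ 2 * τ ≤ 4 * τ := by
      have : (1 + ρ) ^ 2 ≤ 4 := by nlinarith
      nlinarith
    have h2 : ρ - 2 * (1 - ρ) * s - 4 * s ^ 2 ≤ 1 := by
      nlinarith [sq_nonneg (2 * s + (1 - ρ) / 2)]
    nlinarith [sq_nonneg τ]
  exact (pow_le_pow_iff_left₀ (norm_nonneg _) (by positivity) (by norm_num)).mp hsq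

variable {H : Type*} [NormedAddCommGroup H] [InnerProductSpace ℂ H]

theorem exists_max [FiniteDimensional ℂ H] [Nontrivial H] (T : H →L[ℂ] H) :
    ∃ x : H, ‖x‖ = 1 ∧ ‖T x‖ = ‖T‖ := by
  have : ProperSpace H := FiniteDimensional.proper ℂ H
  have hc : IsCompact (Metric.sphere (0 : H) 1) := isCompact_sphere _ _
  have hne : (Metric.sphere (0 : H) 1).Nonempty := by
    obtain ⟨v, hv⟩ := exists_ne (0 : H)
    refine ⟨((‖v‖⁻¹ : ℝ) : ℂ) • v, ?_⟩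
    rw [mem_sphere_zero_iff_norm, norm_smul, Complex.norm_real, norm_inv, norm_norm,
      inv_mul_cancel₀ (norm_ne_zero_iff.mpr hv)]
  obtain ⟨x, hx, hmax⟩ := hc.exists_isMaxOn hne (f := fun v => ‖T v‖) (by fun_prop)
  have hx1 : ‖x‖ = 1 := mem_sphere_zero_iff_norm.mp hx
  refine ⟨x, hx1, le_antisymm ?_ ?_⟩
  · have := T.le_opNorm x
    rwa [hx1, mul_one] at this
  · refine T.opNorm_le_bound (norm_nonneg _) fun v => ?_
    by_cases hv : v = 0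
    · rw [hv, map_zero, norm_zero, mul_zero]
    · have hvn : ‖v‖ ≠ 0 := norm_ne_zero_iff.mpr hv
      have hm : ((‖v‖⁻¹ : ℝ) : ℂ) • v ∈ Metric.sphere (0 : H) 1 := by
        rw [mem_sphere_zero_iff_norm, norm_smul, Complex.norm_real, norm_inv, norm_norm,
          inv_mul_cancel₀ hvn]
      have h1 := hmax hm
      simp only [Set.mem_ofPred_eq, map_smul, norm_smul, Complex.norm_real, norm_inv, norm_norm] at h1
      have h2 : ‖v‖⁻¹ * ‖T v‖ * ‖v‖ ≤ ‖T x‖ * ‖v‖ := mul_le_mul_of_nonneg_right h1 (norm_nonneg _)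
      have h3 : ‖v‖⁻¹ * ‖T v‖ * ‖v‖ = ‖T v‖ := by field_simp
      rwa [h3] at h2

theorem max_inner [CompleteSpace H] (T : H →L[ℂ] H) {x : H} (hx : ‖x‖ = 1) (hT : ‖T x‖ = ‖T‖) (v : H) :
    (inner ℂ (T x) (T v) : ℂ) = ((‖T‖ ^ 2 : ℝ) : ℂ) * inner ℂ x v := by
  set z : H := ContinuousLinearMap.adjoint T (T x) with hz
  have hzn : ‖z‖ ≤ ‖T‖ ^ 2 := by
    have h1 := (ContinuousLinearMap.adjoint T).le_opNorm (T x)
    rw [LinearIsometryEquiv.norm_map, hT] at h1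
    rw [pow_two]
    exact h1
  have hzx : (inner ℂ z x : ℂ) = ((‖T‖ ^ 2 : ℝ) : ℂ) := by
    rw [hz, ContinuousLinearMap.adjoint_inner_left, inner_self_eq_norm_sq_to_K, hT]
    push_cast
    rfl
  have h0 : ‖z - ((‖T‖ ^ 2 : ℝ) : ℂ) • x‖ ^ 2 ≤ 0 := by
    have h1 := norm_sub_sq (𝕜 := ℂ) z (((‖T‖ ^ 2 : ℝ) : ℂ) • x)
    rw [inner_smul_right, hzx, norm_smul, hx, Complex.norm_real, Real.norm_of_nonneg (by positivity),
      mul_one, ← Complex.ofReal_mul] at h1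
    have h2 : (RCLike.re ((‖T‖ ^ 2 * ‖T‖ ^ 2 : ℝ) : ℂ)) = ‖T‖ ^ 2 * ‖T‖ ^ 2 := Complex.ofReal_re _
    rw [h2] at h1
    rw [h1]
    nlinarith [norm_nonneg z]
  have h1 : z = ((‖T‖ ^ 2 : ℝ) : ℂ) • x := by
    have h2 : ‖z - ((‖T‖ ^ 2 : ℝ) : ℂ) • x‖ = 0 := by
      have h3 := norm_nonneg (z - ((‖T‖ ^ 2 : ℝ) : ℂ) • x)
      nlinarith
    exact sub_eq_zero.mp (norm_eq_zero.mp h2)
  rw [← ContinuousLinearMap.adjoint_inner_left, ← hz, h1, inner_smul_left, Complex.conj_ofReal]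

theorem perturb [CompleteSpace H] (T : H →L[ℂ] H) {x y : H} (hx : ‖x‖ = 1) (hy : ‖y‖ = 1)
    (hT : T x = (‖T‖ : ℂ) • y) (h0 : 0 < ‖T‖) {t : ℝ} (ht : 0 ≤ t) :
    ∃ a : ℂ, ‖a‖ ≤ t ∧ ‖T‖ + (‖T‖ ^ 2 - 1) * t * ‖(inner ℂ y x : ℂ)‖ ≤
      ‖T - a • (1 : H →L[ℂ] H) + (starRingEnd ℂ) a • T ^ 2‖ := by
  set β : ℂ := inner ℂ y x with hβ
  refine ⟨((t / ‖β‖ : ℝ) : ℂ) * (starRingEnd ℂ) β, ?_, ?_⟩
  · rw [norm_mul, Complex.norm_real, Real.norm_of_nonneg (by positivity), RCLike.norm_conj]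
    by_cases hb : ‖β‖ = 0
    · rw [hb, mul_zero]; exact ht
    · rw [div_mul_cancel₀ _ hb]
  · set a : ℂ := ((t / ‖β‖ : ℝ) : ℂ) * (starRingEnd ℂ) β with ha
    have hβb : ((t / ‖β‖ : ℝ) : ℂ) * ((starRingEnd ℂ) β * β) = ((t * ‖β‖ : ℝ) : ℂ) := by
      have h1 : (starRingEnd ℂ) β * β = ((‖β‖ ^ 2 : ℝ) : ℂ) := by
        rw [mul_comm, Complex.mul_conj, Complex.normSq_eq_norm_sq]
      rw [h1, ← Complex.ofReal_mul]
      congr 1
      by_cases hb : ‖β‖ = 0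
      · rw [hb]; simp
      · field_simp
    have haβ : a * β = ((t * ‖β‖ : ℝ) : ℂ) := by rw [ha, mul_assoc, hβb]
    have haβ' : (starRingEnd ℂ) a * (starRingEnd ℂ) β = ((t * ‖β‖ : ℝ) : ℂ) := by
      rw [← map_mul, haβ, Complex.conj_ofReal]
    have hTn : ‖T x‖ = ‖T‖ := by
      rw [hT, norm_smul, hy, mul_one, Complex.norm_real, norm_norm]
    have hTc : (‖T‖ : ℂ) ≠ 0 := by exact_mod_cast h0.ne'
    have hyx : y = (‖T‖ : ℂ)⁻¹ • T x := by rw [hT, smul_smul, inv_mul_cancel₀ hTc, one_smul]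
    have h2 : (inner ℂ y (T (T x)) : ℂ) = ((‖T‖ ^ 2 : ℝ) : ℂ) * (starRingEnd ℂ) β := by
      have h3 : (inner ℂ y (T (T x)) : ℂ) = (‖T‖ : ℂ)⁻¹ * inner ℂ (T x) (T (T x)) := by
        conv_lhs => rw [hyx]
        rw [inner_smul_left, map_inv₀, Complex.conj_ofReal]
      rw [h3, max_inner T hx hTn, hT, inner_smul_right, hβ, inner_conj_symm]
      push_cast
      field_simp
    have h4 : (inner ℂ y ((T - a • (1 : H →L[ℂ] H) + (starRingEnd ℂ) a • T ^ 2) x) : ℂ) =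
        ((‖T‖ + (‖T‖ ^ 2 - 1) * t * ‖β‖ : ℝ) : ℂ) := by
      have h5 : (T - a • (1 : H →L[ℂ] H) + (starRingEnd ℂ) a • T ^ 2) x =
          T x - a • x + (starRingEnd ℂ) a • T (T x) := by
        simp [pow_two]
      rw [h5, inner_add_right, inner_sub_right, inner_smul_right, inner_smul_right, h2, ← hβ, haβ, hT,
        inner_smul_right, inner_self_one hy, mul_one, mul_left_comm, haβ']
      push_cast
      ring
    have h5 := norm_inner_le_norm (𝕜 := ℂ) y ((T - a • (1 : H →L[ℂ] H) + (starRingEnd ℂ) a • T ^ 2) x)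
    rw [h4, hy, one_mul, Complex.norm_real] at h5
    have h6 := (T - a • (1 : H →L[ℂ] H) + (starRingEnd ℂ) a • T ^ 2).le_opNorm x
    rw [hx, mul_one] at h6
    exact (le_abs_self _).trans (h5.trans h6)

/-- the trivial bound `2` -/
theorem le_two [CompleteSpace H] [Nontrivial H] {q : ℂ} (hq0 : q ≠ 0) (hq1 : ‖q‖ ≤ 1) (A : H →L[ℂ] H)
    (hdim : ∀ x : H, ‖x‖ = 1 → ∃ v : H, ‖v‖ = 1 ∧ inner ℂ x v = (0 : ℂ)) (p : ℂ[X]) (M : ℝ)
    (hM : ∀ z ∈ Om q A, ‖p.eval z‖ ≤ M) : ‖aeval A p‖ ≤ 2 * M := by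
  apply crouzeix_bound A p M
  rintro w ⟨x, hx, rfl⟩
  exact disc_le hq0 hq1 A hdim p M hM hx (by rw [sub_self, norm_zero]; positivity)

theorem arith {K m c : ℝ} (hc0 : 0 ≤ c) (hm1 : 1 ≤ m) (hm2 : 2 * c ≤ m) (hKm : m < K) :
    ∃ s : ℝ, 0 < s ∧ s ≤ K - 1 ∧ ∀ κ b : ℝ, 0 ≤ b → K - s < κ → κ + (κ ^ 2 - 1) * √s * b ≤ (1 + 2 * s) * K →
      κ ^ 2 ≤ 4 * (b ^ 2 + c ^ 2) → False := by
  have hK1 : 1 < K := lt_of_le_of_lt hm1 hKm
  obtain ⟨K', hK'm, hK'K⟩ : ∃ K' : ℝ, m < K' ∧ K' < K := exists_between hKm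
  have hK'1 : 1 < K' := lt_of_le_of_lt hm1 hK'm
  have hE : 0 < K' ^ 2 - 4 * c ^ 2 := by nlinarith
  obtain ⟨E, hEd⟩ : ∃ E, E = K' ^ 2 - 4 * c ^ 2 := ⟨_, rfl⟩
  rw [← hEd] at hE
  have hF : 0 < K' ^ 2 - 1 := by nlinarith
  obtain ⟨F, hFd⟩ : ∃ F, F = K' ^ 2 - 1 := ⟨_, rfl⟩
  rw [← hFd] at hF
  obtain ⟨G, hG⟩ : ∃ G, G = (2 * K + 1) / F := ⟨_, rfl⟩
  have hG0 : 0 < G := by rw [hG]; positivity
  have hGF : G * F = 2 * K + 1 := by rw [hG]; field_simp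
  refine ⟨min (K - K') (E / (8 * G ^ 2)), lt_min (by linarith) (by positivity),
    (min_le_left _ _).trans (by linarith), ?_⟩
  intro κ b hb0 hκ2 h1 h6
  have hs0 : 0 < min (K - K') (E / (8 * G ^ 2)) := lt_min (by linarith) (by positivity)
  have hs1 : min (K - K') (E / (8 * G ^ 2)) ≤ K - K' := min_le_left _ _
  have hs2 : min (K - K') (E / (8 * G ^ 2)) ≤ E / (8 * G ^ 2) := min_le_right _ _
  generalize min (K - K') (E / (8 * G ^ 2)) = s at *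
  obtain ⟨t, ht⟩ : ∃ t, t = √s := ⟨_, rfl⟩
  have ht0 : 0 < t := by rw [ht]; exact Real.sqrt_pos.mpr hs0
  have ht2 : t ^ 2 = s := by rw [ht]; exact Real.sq_sqrt hs0.le
  rw [← ht] at h1
  have hκK' : K' < κ := by linarith
  have h2 : (κ ^ 2 - 1) * t * b ≤ (2 * K + 1) * s := by linarith
  have h4 : F ≤ κ ^ 2 - 1 := by rw [hFd]; nlinarith
  have h3 : F * b ≤ (2 * K + 1) * t := by
    have h5 : F * b * t ≤ (2 * K + 1) * t * t := by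
      have h6 : F * (b * t) ≤ (κ ^ 2 - 1) * (b * t) := mul_le_mul_of_nonneg_right h4 (by positivity)
      have h7 : (2 * K + 1) * t * t = (2 * K + 1) * s := by rw [← ht2]; ring
      rw [h7]
      linarith
    exact le_of_mul_le_mul_right h5 ht0
  have h4' : b ≤ G * t := by
    have h5 : F * b ≤ F * (G * t) := by
      have h7 : F * (G * t) = (2 * K + 1) * t := by rw [← hGF]; ring
      rw [h7]
      exact h3
    exact le_of_mul_le_mul_left h5 hF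
  have h5 : b ^ 2 ≤ G ^ 2 * s := by
    have := pow_le_pow_left₀ hb0 h4' 2
    rwa [mul_pow, ht2] at this
  have h7 : G ^ 2 * s ≤ E / 8 := by
    have h8 := mul_le_mul_of_nonneg_left hs2 (by positivity : 0 ≤ G ^ 2)
    have h9 : G ^ 2 * (E / (8 * G ^ 2)) = E / 8 := by field_simp
    linarith
  have h8 : K' ^ 2 ≤ κ ^ 2 := by nlinarith
  linarith

/-- The perturbed polynomial. -/
theorem pert_poly {q : ℂ} (A : H →L[ℂ] H) (P : ℂ[X]) (hP : ∀ z ∈ Om q A, ‖P.eval z‖ ≤ 1) {K : ℝ}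
    (hle : ∀ P : ℂ[X], (∀ z ∈ Om q A, ‖P.eval z‖ ≤ 1) → ‖aeval A P‖ ≤ K) {s : ℝ} (hs0 : 0 < s) {a : ℂ}
    (ha : ‖a‖ ≤ √s) :
    ‖aeval A P - a • (1 : H →L[ℂ] H) + (starRingEnd ℂ) a • (aeval A P) ^ 2‖ ≤ (1 + 2 * s) * K := by
  have hat2 : ‖a‖ ^ 2 ≤ s := by
    have := pow_le_pow_left₀ (norm_nonneg _) ha 2
    rwa [Real.sq_sqrt hs0.le] at this
  have hsc : (0 : ℝ) < 1 + 2 * s := by linarith
  have hQ3 := hle (C (((1 + 2 * s : ℝ) : ℂ)⁻¹) * (P - C a + C ((starRingEnd ℂ) a) * P ^ 2)) (by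
    intro z hz
    have h1 := quad_le (a := a) (hP z hz)
    have h2 : (C (((1 + 2 * s : ℝ) : ℂ)⁻¹) * (P - C a + C ((starRingEnd ℂ) a) * P ^ 2)).eval z =
        ((1 + 2 * s : ℝ) : ℂ)⁻¹ * (P.eval z - a + (starRingEnd ℂ) a * (P.eval z) ^ 2) := by
      simp
    rw [h2, norm_mul, norm_inv, Complex.norm_real, Real.norm_of_nonneg hsc.le, inv_mul_le_iff₀ hsc, mul_one]
    linarith)
  have hQ2 : aeval A (C (((1 + 2 * s : ℝ) : ℂ)⁻¹) * (P - C a + C ((starRingEnd ℂ) a) * P ^ 2)) =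
      ((1 + 2 * s : ℝ) : ℂ)⁻¹ • (aeval A P - a • (1 : H →L[ℂ] H) + (starRingEnd ℂ) a • (aeval A P) ^ 2) := by
    rw [map_mul, aeval_C, map_add, map_sub, aeval_C, map_mul, aeval_C, map_pow,
      Algebra.algebraMap_eq_smul_one, Algebra.algebraMap_eq_smul_one, Algebra.algebraMap_eq_smul_one,
      smul_one_mul, smul_one_mul]
  rwa [hQ2, norm_smul, norm_inv, Complex.norm_real, Real.norm_of_nonneg hsc.le, inv_mul_le_iff₀ hsc] at hQ3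

/-- **The bound for polynomials bounded by one.** -/
theorem main_le [CompleteSpace H] [FiniteDimensional ℂ H] [Nontrivial H] {q : ℂ} (hq0 : q ≠ 0)
    (hq1 : ‖q‖ ≤ 1) (A : H →L[ℂ] H)
    (hdim : ∀ x : H, ‖x‖ = 1 → ∃ v : H, ‖v‖ = 1 ∧ inner ℂ x v = (0 : ℂ)) (p : ℂ[X])
    (hM : ∀ z ∈ Om q A, ‖p.eval z‖ ≤ 1) :
    ‖aeval A p‖ ≤ max 1 (2 * (‖q‖ / (1 + √(1 - ‖q‖ ^ 2)))) := by
  have hc0 : 0 ≤ ‖q‖ / (1 + √(1 - ‖q‖ ^ 2)) := by positivity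
  have hSb : BddAbove {κ : ℝ | ∃ p : ℂ[X], (∀ z ∈ Om q A, ‖p.eval z‖ ≤ 1) ∧ κ = ‖aeval A p‖} := by
    refine ⟨2, ?_⟩
    rintro κ ⟨P, hP, rfl⟩
    have := le_two hq0 hq1 A hdim P 1 hP
    linarith
  have hSne : {κ : ℝ | ∃ p : ℂ[X], (∀ z ∈ Om q A, ‖p.eval z‖ ≤ 1) ∧ κ = ‖aeval A p‖}.Nonempty :=
    ⟨_, p, hM, rfl⟩
  obtain ⟨K, hK⟩ : ∃ K, K = sSup {κ : ℝ | ∃ p : ℂ[X], (∀ z ∈ Om q A, ‖p.eval z‖ ≤ 1) ∧ κ = ‖aeval A p‖} :=
    ⟨_, rfl⟩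
  have hle : ∀ P : ℂ[X], (∀ z ∈ Om q A, ‖P.eval z‖ ≤ 1) → ‖aeval A P‖ ≤ K := fun P hP => by
    rw [hK]
    exact le_csSup hSb ⟨P, hP, rfl⟩
  refine (hle p hM).trans ?_
  by_contra hcon
  push Not at hcon
  obtain ⟨s, hs0, hs1, hs⟩ := arith hc0 (le_max_left _ _) (le_max_right _ _) hcon
  obtain ⟨κ, ⟨P, hP, hκ⟩, hκ2⟩ := exists_lt_of_lt_csSup hSne (show K - s < sSup _ by rw [← hK]; linarith)
  have hTn : 0 < ‖aeval A P‖ := by rw [← hκ]; linarith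
  have hle' := fun a ha => pert_poly A P hP hle hs0 (a := a) ha
  have hcr := fun x y hx hy h => crz hq0 hq1 A hdim P hP (x := x) (y := y) hx hy hTn.le h
  generalize aeval A P = T at *
  obtain ⟨x, hx, hTx⟩ := exists_max T
  have hTc : (‖T‖ : ℂ) ≠ 0 := by exact_mod_cast hTn.ne'
  have hy1 : ‖(‖T‖ : ℂ)⁻¹ • T x‖ = 1 := by
    rw [norm_smul, norm_inv, Complex.norm_real, norm_norm, hTx, inv_mul_cancel₀ hTn.ne']
  have hTy : T x = (‖T‖ : ℂ) • ((‖T‖ : ℂ)⁻¹ • T x) := by rw [smul_smul, mul_inv_cancel₀ hTc, one_smul]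
  obtain ⟨a, hat, hper⟩ := perturb T hx hy1 hTy hTn (Real.sqrt_nonneg s)
  have h1 := hper.trans (hle' a hat)
  have h6 := hcr x _ hx hy1 hTy
  rw [← hκ] at h1 h6
  exact hs κ _ (norm_nonneg _) hκ2 h1 h6

end Pool.Agent.X24.QN
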