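import Mathlib
import Pool.Agent.W753.CZ.Crouzeix

/-!
The scaled `q`-numerical range and similarities.
-/

set_option autoImplicit false

open Polynomial Module

namespace Pool.Agent.X24.QN

variable {H : Type*} [NormedAddCommGroup H] [InnerProductSpace ℂ H]

/-- The scaled `q`-numerical range. Mathlib's inner product is linear in the second argument. -/
def Om (q : ℂ) (A : H →L[ℂ] H) : Set ℂ :=
  {z : ℂ | ∃ x y : H, ‖x‖ = 1 ∧ ‖y‖ = 1 ∧ inner ℂ y x = q ∧ z = inner ℂ y (A x) / q}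

theorem inner_self_one {x : H} (hx : ‖x‖ = 1) : inner ℂ x x = (1 : ℂ) := by
  rw [inner_self_eq_norm_sq_to_K, hx]
  norm_num

theorem norm_add_orth {x v : H} (h : inner ℂ x v = (0 : ℂ)) (a b : ℂ) :
    ‖a • x + b • v‖ ^ 2 = ‖a‖ ^ 2 * ‖x‖ ^ 2 + ‖b‖ ^ 2 * ‖v‖ ^ 2 := by
  have h1 : inner ℂ (a • x) (b • v) = (0 : ℂ) := by
    rw [inner_smul_left, inner_smul_right, h, mul_zero, mul_zero]
  have h2 := norm_add_sq_eq_norm_sq_add_norm_sq_of_inner_eq_zero _ _ h1
  rw [norm_smul, norm_smul] at h2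
  nlinarith

/-- points on a circle belong to the scaled range -/
theorem mem_circle {q : ℂ} (hq0 : q ≠ 0) (hq1 : ‖q‖ ≤ 1) (A : H →L[ℂ] H) {x v : H} (hx : ‖x‖ = 1) (hv : ‖v‖ = 1)
    (hxv : inner ℂ x v = (0 : ℂ)) (e : ℂ) (he : ‖e‖ = 1) :
    inner ℂ x (A x) + ((√(1 - ‖q‖ ^ 2) / ‖q‖ : ℝ) : ℂ) * e * inner ℂ v (A x) ∈ Om q A := by
  have hqn : 0 < ‖q‖ := norm_pos_iff.mpr hq0
  set p0 := √(1 - ‖q‖ ^ 2) with hp0
  have hp2 : p0 ^ 2 = 1 - ‖q‖ ^ 2 := Real.sq_sqrt (by nlinarith)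
  -- the coefficient
  set b : ℂ := (p0 : ℂ) * (starRingEnd ℂ) (e * q / (‖q‖ : ℂ)) with hb
  have hbn : ‖b‖ = p0 := by
    rw [hb, norm_mul, RCLike.norm_conj, norm_div, norm_mul, he, one_mul, Complex.norm_real, Complex.norm_real,
      Real.norm_of_nonneg (Real.sqrt_nonneg _), norm_norm, div_self hqn.ne', mul_one]
  set y : H := (starRingEnd ℂ) q • x + b • v with hy
  have hy1 : ‖y‖ = 1 := by
    have h1 := norm_add_orth hxv ((starRingEnd ℂ) q) b
    rw [← hy, hx, hv, RCLike.norm_conj, hbn, hp2] at h1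
    have h2 : ‖y‖ ^ 2 = 1 := by linarith
    have h3 : 0 ≤ ‖y‖ := norm_nonneg _
    nlinarith
  refine ⟨x, y, hx, hy1, ?_, ?_⟩
  · rw [hy, inner_add_left, inner_smul_left, inner_smul_left, inner_self_one hx]
    have h1 : inner ℂ v x = (0 : ℂ) := by rw [← inner_conj_symm, hxv, map_zero]
    rw [h1, mul_zero, add_zero, mul_one, Complex.conj_conj]
  · rw [hy, inner_add_left, inner_smul_left, inner_smul_left, Complex.conj_conj, add_div, mul_div_assoc,
      mul_div_assoc, hb, map_mul, Complex.conj_conj, Complex.conj_ofReal]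
    have hqn' : (‖q‖ : ℂ) ≠ 0 := by exact_mod_cast hqn.ne'
    push_cast
    field_simp

/-- the points of the disc around `⟨A x, x⟩` -/
theorem disc_le {q : ℂ} (hq0 : q ≠ 0) (hq1 : ‖q‖ ≤ 1) (A : H →L[ℂ] H)
    (hdim : ∀ x : H, ‖x‖ = 1 → ∃ v : H, ‖v‖ = 1 ∧ inner ℂ x v = (0 : ℂ)) (p : ℂ[X]) (M : ℝ)
    (hM : ∀ z ∈ Om q A, ‖p.eval z‖ ≤ M) {x : H} (hx : ‖x‖ = 1) {z : ℂ}
    (hz : ‖z - inner ℂ x (A x)‖ ≤ √(1 - ‖q‖ ^ 2) / ‖q‖ * ‖A x - (inner ℂ x (A x) : ℂ) • x‖) :
    ‖p.eval z‖ ≤ M := by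
  have hqn : 0 < ‖q‖ := norm_pos_iff.mpr hq0
  set m : ℂ := inner ℂ x (A x) with hm
  set τ : ℝ := √(1 - ‖q‖ ^ 2) / ‖q‖ with hτ
  have hτ0 : 0 ≤ τ := by positivity
  set w : H := A x - m • x with hw
  have hxw : inner ℂ x w = (0 : ℂ) := by
    rw [hw, inner_sub_right, inner_smul_right, inner_self_one hx, mul_one, ← hm, sub_self]
  by_cases h0 : τ * ‖w‖ = 0
  · rw [h0] at hz
    have hzm : z = m := by
      have := norm_le_zero_iff.mp hz
      exact sub_eq_zero.mp this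
    obtain ⟨v, hv1, hv2⟩ := hdim x hx
    rcases mul_eq_zero.mp h0 with h1 | h1
    · have h2 := mem_circle hq0 hq1 A hx hv1 hv2 1 norm_one
      rw [← hτ, h1] at h2
      rw [hzm]
      apply hM
      simpa using h2
    · have h2 := mem_circle hq0 hq1 A hx hv1 hv2 1 norm_one
      have h3 : inner ℂ v (A x) = (0 : ℂ) := by
        have h4 : A x = m • x := by
          have := norm_eq_zero.mp h1
          exact sub_eq_zero.mp this
        have h5 : inner ℂ v x = (0 : ℂ) := by rw [← inner_conj_symm, hv2, map_zero]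
        rw [h4, inner_smul_right, h5, mul_zero]
      rw [h3, mul_zero, add_zero] at h2
      rw [hzm]
      exact hM _ h2
  · have hw0 : ‖w‖ ≠ 0 := fun h => h0 (by rw [h, mul_zero])
    have hwp : 0 < ‖w‖ := lt_of_le_of_ne (norm_nonneg _) (Ne.symm hw0)
    have hτp : 0 < τ := lt_of_le_of_ne hτ0 (fun h => h0 (by rw [← h, zero_mul]))
    set v : H := ((‖w‖⁻¹ : ℝ) : ℂ) • w with hv
    have hv1 : ‖v‖ = 1 := by
      rw [hv, norm_smul, Complex.norm_real, norm_inv, norm_norm, inv_mul_cancel₀ hw0]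
    have hv2 : inner ℂ x v = (0 : ℂ) := by rw [hv, inner_smul_right, hxw, mul_zero]
    have hvA : inner ℂ v (A x) = (‖w‖ : ℂ) := by
      have h1 : A x = w + m • x := by rw [hw]; abel
      have h2 : inner ℂ v x = (0 : ℂ) := by rw [← inner_conj_symm, hv2, map_zero]
      rw [h1, inner_add_right, inner_smul_right, h2, mul_zero, add_zero, hv, inner_smul_left, Complex.conj_ofReal,
        inner_self_eq_norm_sq_to_K]
      push_cast
      have : (‖w‖ : ℂ) ≠ 0 := by exact_mod_cast hw0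
      field_simp
      rfl
    have hU : Bornology.IsBounded (Metric.ball m (τ * ‖w‖)) := Metric.isBounded_ball
    have hdf : DiffContOnCl ℂ (fun z => p.eval z) (Metric.ball m (τ * ‖w‖)) :=
      (p.differentiable).diffContOnCl
    refine Complex.norm_le_of_forall_mem_frontier_norm_le hU hdf ?_ (z := z) ?_
    · intro y hy
      rw [frontier_ball _ h0, mem_sphere_iff_norm] at hy
      apply hM
      have hr : 0 < τ * ‖w‖ := by positivity
      have hr' : ((τ * ‖w‖ : ℝ) : ℂ) ≠ 0 := by exact_mod_cast hr.ne'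
      have h2 := mem_circle hq0 hq1 A hx hv1 hv2 ((y - m) / ((τ * ‖w‖ : ℝ) : ℂ)) (by
        rw [norm_div, hy, Complex.norm_real, Real.norm_of_nonneg hr.le, div_self hr.ne'])
      rw [hvA, ← hτ, ← hm] at h2
      have h3 : m + (τ : ℂ) * ((y - m) / ((τ * ‖w‖ : ℝ) : ℂ)) * (‖w‖ : ℂ) = y := by
        have h4 : (τ : ℂ) ≠ 0 := by exact_mod_cast hτp.ne'
        have h5 : (‖w‖ : ℂ) ≠ 0 := by exact_mod_cast hw0
        push_cast
        field_simp
        ring
      rwa [h3] at h2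
    · rw [closure_ball _ h0, mem_closedBall_iff_norm]
      exact hz

end Pool.Agent.X24.QN
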