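import Pool.Agent.X24.QN.A

/-!
Similarity by a positive operator with two eigenvalues.
-/

set_option autoImplicit false

open Polynomial Module

namespace Pool.Agent.X24.QN

open Pool.Agent.W753.CZ (numRange crouzeix_bound)

variable {H : Type*} [NormedAddCommGroup H] [InnerProductSpace ℂ H]

/-- the projection onto the line of `e` -/
noncomputable def Pr (e : H) : H →L[ℂ] H := (innerSL ℂ e).smulRight e

theorem Pr_apply (e u : H) : Pr e u = (inner ℂ e u : ℂ) • e := rfl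

/-- the operator with the eigenvalue `r` on the line of `e` and `r⁻¹` on the complement -/
noncomputable def Sr (r : ℝ) (e : H) : H →L[ℂ] H := ((r⁻¹ : ℝ) : ℂ) • 1 + ((r - r⁻¹ : ℝ) : ℂ) • Pr e

theorem Sr_apply (r : ℝ) (e u : H) :
    Sr r e u = ((r⁻¹ : ℝ) : ℂ) • u + ((r - r⁻¹ : ℝ) : ℂ) • ((inner ℂ e u : ℂ) • e) := rfl

theorem Sr_self {r : ℝ} {e : H} (he : ‖e‖ = 1) : Sr r e e = (r : ℂ) • e := by
  rw [Sr_apply, inner_self_one he, one_smul, ← add_smul]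
  congr 1
  push_cast
  ring

theorem Sr_mul {r : ℝ} (hr : r ≠ 0) {e : H} (he : ‖e‖ = 1) : Sr r e * Sr r⁻¹ e = 1 := by
  ext u
  have hrc : (r : ℂ) ≠ 0 := by exact_mod_cast hr
  rw [ContinuousLinearMap.mul_apply, Sr_apply r, Sr_apply r⁻¹, inner_add_right, inner_smul_right, inner_smul_right,
    inner_smul_right, inner_self_one he, ContinuousLinearMap.one_apply]
  simp only [smul_add, smul_smul, ← add_smul, add_assoc]
  have h1 : ((r⁻¹ : ℝ) : ℂ) * (((r⁻¹)⁻¹ : ℝ) : ℂ) = 1 := by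
    push_cast
    field_simp
  have h2 : (((r⁻¹ : ℝ) : ℂ) * (((r⁻¹ - (r⁻¹)⁻¹ : ℝ) : ℂ) * (inner ℂ e u : ℂ)) +
      ((r - r⁻¹ : ℝ) : ℂ) * ((((r⁻¹)⁻¹ : ℝ) : ℂ) * (inner ℂ e u : ℂ) +
        ((r⁻¹ - (r⁻¹)⁻¹ : ℝ) : ℂ) * ((inner ℂ e u : ℂ) * 1))) = 0 := by
    push_cast
    field_simp
    ring
  rw [h1, one_smul, h2, zero_smul, add_zero]

theorem Sr_symm (r : ℝ) (e u v : H) : inner ℂ (Sr r e u) v = (inner ℂ u (Sr r e v) : ℂ) := by
  rw [Sr_apply, Sr_apply, inner_add_left, inner_add_right, inner_smul_left, inner_smul_left, inner_smul_left,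
    inner_smul_right, inner_smul_right, inner_smul_right, Complex.conj_ofReal, Complex.conj_ofReal, inner_conj_symm]
  ring

theorem Sr_norm {r : ℝ} (hr : 0 < r) {e : H} (he : ‖e‖ = 1) (u : H) :
    ‖Sr r e u‖ ^ 2 = r ^ 2 * ‖(inner ℂ e u : ℂ)‖ ^ 2 + r⁻¹ ^ 2 * (‖u‖ ^ 2 - ‖(inner ℂ e u : ℂ)‖ ^ 2) := by
  set α : ℂ := inner ℂ e u with hα
  set w : H := u - α • e with hw
  have hew : inner ℂ e w = (0 : ℂ) := by
    rw [hw, inner_sub_right, inner_smul_right, inner_self_one he, mul_one, ← hα, sub_self]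
  have hu : u = α • e + (1 : ℂ) • w := by rw [hw, one_smul]; abel
  have h1 := norm_add_orth hew α 1
  rw [← hu, he, norm_one] at h1
  have h2 : Sr r e u = ((r : ℂ) * α) • e + ((r⁻¹ : ℝ) : ℂ) • w := by
    rw [Sr_apply, ← hα, hw, smul_sub, smul_smul, smul_smul]
    have : ((r : ℂ) * α) = ((r⁻¹ : ℝ) : ℂ) * α + ((r - r⁻¹ : ℝ) : ℂ) * α := by
      push_cast
      ring
    rw [this, add_smul]
    abel
  have h3 := norm_add_orth hew ((r : ℂ) * α) ((r⁻¹ : ℝ) : ℂ)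
  rw [← h2, he, norm_mul, Complex.norm_real, Complex.norm_real, Real.norm_of_nonneg hr.le,
    Real.norm_of_nonneg (inv_nonneg.mpr hr.le)] at h3
  rw [h3]
  have h4 : ‖w‖ ^ 2 = ‖u‖ ^ 2 - ‖α‖ ^ 2 := by linarith
  rw [h4]
  ring

theorem inner_le (e u : H) (he : ‖e‖ = 1) : ‖(inner ℂ e u : ℂ)‖ ≤ ‖u‖ := by
  have := norm_inner_le_norm (𝕜 := ℂ) e u
  rwa [he, one_mul] at this

/-- the numerical range of the similar operator -/
theorem sim_le {q : ℂ} (hq0 : q ≠ 0) (hq1 : ‖q‖ ≤ 1) (A : H →L[ℂ] H)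
    (hdim : ∀ x : H, ‖x‖ = 1 → ∃ v : H, ‖v‖ = 1 ∧ inner ℂ x v = (0 : ℂ)) (p : ℂ[X]) (M : ℝ)
    (hM : ∀ z ∈ Om q A, ‖p.eval z‖ ≤ M) {r : ℝ} (hr : 0 < r) (hrq : r ^ 2 + r⁻¹ ^ 2 = 2 / ‖q‖) {e : H} (he : ‖e‖ = 1)
    {z : ℂ} (hz : z ∈ numRange (Sr r e * A * Sr r⁻¹ e)) : ‖p.eval z‖ ≤ M := by
  have hqn : 0 < ‖q‖ := norm_pos_iff.mpr hq0
  obtain ⟨v, hv, rfl⟩ := hz
  have hrr : Sr r e * Sr r⁻¹ e = 1 := Sr_mul hr.ne' he
  set x0 : H := Sr r⁻¹ e v with hx0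
  have hS : Sr r e x0 = v := by
    have := congrArg (fun L : H →L[ℂ] H => L v) hrr
    exact this
  have hx0n : ‖x0‖ ≠ 0 := by
    intro h
    have h1 : x0 = 0 := norm_eq_zero.mp h
    rw [h1, map_zero] at hS
    rw [← hS, norm_zero] at hv
    norm_num at hv
  have hx0p : 0 < ‖x0‖ := lt_of_le_of_ne (norm_nonneg _) (Ne.symm hx0n)
  set x : H := ((‖x0‖⁻¹ : ℝ) : ℂ) • x0 with hx
  have hx1 : ‖x‖ = 1 := by
    rw [hx, norm_smul, Complex.norm_real, norm_inv, norm_norm, inv_mul_cancel₀ hx0n]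
  set W : H := ((‖x0‖ : ℝ) : ℂ) • Sr r e v with hW
  have hWx : inner ℂ W x = (1 : ℂ) := by
    rw [hW, hx, inner_smul_left, inner_smul_right, Complex.conj_ofReal, Sr_symm, hS, inner_self_one hv, mul_one,
      ← Complex.ofReal_mul, mul_inv_cancel₀ hx0n, Complex.ofReal_one]
  have hWA : inner ℂ v ((Sr r e * A * Sr r⁻¹ e) v) = (inner ℂ W (A x) : ℂ) := by
    have h1 : (Sr r e * A * Sr r⁻¹ e) v = Sr r e (A x0) := rfl
    rw [h1, ← Sr_symm, hW, hx, map_smul, inner_smul_left, inner_smul_right, Complex.conj_ofReal, ← mul_assoc,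
      ← Complex.ofReal_mul, mul_inv_cancel₀ hx0n, Complex.ofReal_one, one_mul]
  rw [hWA]
  apply disc_le hq0 hq1 A hdim p M hM hx1
  set m : ℂ := inner ℂ x (A x) with hm
  have hWx' : inner ℂ (W - x) x = (0 : ℂ) := by rw [inner_sub_left, hWx, inner_self_one hx1, sub_self]
  have h1 : (inner ℂ W (A x) : ℂ) - m = inner ℂ (W - x) (A x - m • x) := by
    rw [inner_sub_right, inner_smul_right, hWx', mul_zero, sub_zero, inner_sub_left]
  rw [h1]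
  refine (norm_inner_le_norm _ _).trans ?_
  refine mul_le_mul_of_nonneg_right ?_ (norm_nonneg _)
  -- the norm of `W`
  have hα : ‖(inner ℂ e v : ℂ)‖ ^ 2 ≤ 1 := by
    have := inner_le e v he
    rw [hv] at this
    have h2 := norm_nonneg (inner ℂ e v : ℂ)
    nlinarith
  have hWn : ‖W‖ ^ 2 ≤ (1 / ‖q‖) ^ 2 := by
    have e1 : ‖W‖ ^ 2 = ‖Sr r⁻¹ e v‖ ^ 2 * ‖Sr r e v‖ ^ 2 := by
      rw [hW, norm_smul, Complex.norm_real, norm_norm, mul_pow]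
    have e2 := Sr_norm hr he v
    have e3 := Sr_norm (inv_pos.mpr hr) he v
    rw [inv_inv] at e3
    have e4 : ‖Sr r⁻¹ e v‖ ^ 2 + ‖Sr r e v‖ ^ 2 = 2 / ‖q‖ := by
      rw [e2, e3, hv, ← hrq]
      ring
    rw [e1]
    have e5 : (1 / ‖q‖) ^ 2 = ((‖Sr r⁻¹ e v‖ ^ 2 + ‖Sr r e v‖ ^ 2) / 2) ^ 2 := by
      rw [e4]
      congr 1
      field_simp
    rw [e5]
    nlinarith [sq_nonneg (‖Sr r⁻¹ e v‖ ^ 2 - ‖Sr r e v‖ ^ 2)]
  have hsub : ‖W - x‖ ^ 2 = ‖W‖ ^ 2 - 1 := by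
    have h2 := norm_sub_sq (𝕜 := ℂ) W x
    rw [hWx, hx1] at h2
    simp at h2
    linarith
  have h3 : ‖W - x‖ ^ 2 ≤ (√(1 - ‖q‖ ^ 2) / ‖q‖) ^ 2 := by
    rw [hsub, div_pow, Real.sq_sqrt (by nlinarith)]
    have : (1 - ‖q‖ ^ 2) / ‖q‖ ^ 2 = (1 / ‖q‖) ^ 2 - 1 := by
      field_simp
    rw [this]
    linarith
  exact (pow_le_pow_iff_left₀ (norm_nonneg _) (by positivity) (by norm_num)).mp h3

/-- polynomials of the similar operator -/
theorem aeval_sim {r : ℝ} (hr : r ≠ 0) {e : H} (he : ‖e‖ = 1) (A : H →L[ℂ] H) (p : ℂ[X]) :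
    aeval (Sr r e * A * Sr r⁻¹ e) p * Sr r e = Sr r e * aeval A p := by
  have hinv : Sr r⁻¹ e * Sr r e = 1 := by
    have := Sr_mul (inv_ne_zero hr) he
    rwa [inv_inv] at this
  have hcomm : (Sr r e * A * Sr r⁻¹ e) * Sr r e = Sr r e * A := by
    rw [mul_assoc, hinv, mul_one]
  induction p using Polynomial.induction_on' with
  | add p q hp hq => rw [map_add, map_add, add_mul, mul_add, hp, hq]
  | monomial n a =>
    rw [aeval_monomial, aeval_monomial]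
    have h1 : (Sr r e * A * Sr r⁻¹ e) ^ n * Sr r e = Sr r e * A ^ n := by
      induction n with
      | zero => simp
      | succ n ih => rw [pow_succ, mul_assoc, hcomm, ← mul_assoc, ih, pow_succ, mul_assoc]
    rw [mul_assoc, h1, ← mul_assoc, ← mul_assoc, Algebra.commutes]

/-- **The bound from Crouzeix's theorem.** -/
theorem crz [CompleteSpace H] [Nontrivial H] {q : ℂ} (hq0 : q ≠ 0) (hq1 : ‖q‖ ≤ 1) (A : H →L[ℂ] H)
    (hdim : ∀ x : H, ‖x‖ = 1 → ∃ v : H, ‖v‖ = 1 ∧ inner ℂ x v = (0 : ℂ)) (p : ℂ[X])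
    (hM : ∀ z ∈ Om q A, ‖p.eval z‖ ≤ 1) {x y : H} (hx : ‖x‖ = 1) (hy : ‖y‖ = 1) {κ : ℝ} (hκ : 0 ≤ κ)
    (hTx : aeval A p x = (κ : ℂ) • y) :
    κ ^ 2 ≤ 4 * (‖(inner ℂ y x : ℂ)‖ ^ 2 + (‖q‖ / (1 + √(1 - ‖q‖ ^ 2))) ^ 2) := by
  have hqn : 0 < ‖q‖ := norm_pos_iff.mpr hq0
  set p0 := √(1 - ‖q‖ ^ 2) with hp0
  have hp00 : 0 ≤ p0 := Real.sqrt_nonneg _
  have hp2 : p0 ^ 2 = 1 - ‖q‖ ^ 2 := Real.sq_sqrt (by nlinarith)
  set c : ℝ := ‖q‖ / (1 + p0) with hc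
  have hc0 : 0 < c := by positivity
  set r : ℝ := √(1 / c) with hr
  have hr0 : 0 < r := Real.sqrt_pos.mpr (by positivity)
  have hr2 : r ^ 2 = 1 / c := Real.sq_sqrt (by positivity)
  have hr2' : r⁻¹ ^ 2 = c := by rw [inv_pow, hr2, one_div, inv_inv]
  have hrq : r ^ 2 + r⁻¹ ^ 2 = 2 / ‖q‖ := by
    rw [hr2, hr2', hc]
    field_simp
    nlinarith
  have hB := crouzeix_bound (Sr r y * A * Sr r⁻¹ y) p 1 (fun z hz => sim_le hq0 hq1 A hdim p 1 hM hr0 hrq hy hz)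
  have h1 : aeval (Sr r y * A * Sr r⁻¹ y) p (Sr r y x) = ((κ * r : ℝ) : ℂ) • y := by
    have h2 := congrArg (fun L : H →L[ℂ] H => L x) (aeval_sim hr0.ne' hy A p)
    have h3 : aeval (Sr r y * A * Sr r⁻¹ y) p (Sr r y x) = Sr r y (aeval A p x) := h2
    rw [h3, hTx, map_smul, Sr_self hy, smul_smul]
    push_cast
    rfl
  have h2 : κ * r ≤ 2 * ‖Sr r y x‖ := by
    have h3 := (aeval (Sr r y * A * Sr r⁻¹ y) p).le_opNorm (Sr r y x)
    rw [h1, norm_smul, Complex.norm_real, Real.norm_of_nonneg (by positivity), hy, mul_one] at h3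
    have h4 := mul_le_mul_of_nonneg_right hB (norm_nonneg (Sr r y x))
    linarith
  have h3 := Sr_norm hr0 hy x
  rw [hr2, hr2', hx] at h3
  have h4 : (κ * r) ^ 2 ≤ (2 * ‖Sr r y x‖) ^ 2 := pow_le_pow_left₀ (by positivity) h2 2
  rw [mul_pow, mul_pow, h3, hr2] at h4
  set s := ‖(inner ℂ y x : ℂ)‖ ^ 2 with hs
  have hs0 : 0 ≤ s := by positivity
  have h5 : κ ^ 2 ≤ 4 * (s + c ^ 2 * (1 - s)) := by
    have h6 := mul_le_mul_of_nonneg_right h4 hc0.le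
    have h7 : κ ^ 2 * (1 / c) * c = κ ^ 2 := by field_simp
    have h8 : 2 ^ 2 * (1 / c * s + c * (1 ^ 2 - s)) * c = 4 * (s + c ^ 2 * (1 - s)) := by
      field_simp
      ring
    rw [h7, h8] at h6
    exact h6
  nlinarith [sq_nonneg c]

end Pool.Agent.X24.QN
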